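import Pool.Agent.Lib.MP_5d1ef1_an_SC.Main

set_option autoImplicit false

/-!
# MP_5d1ef1_an: sequential commutation orbits of non-prime II_1 factors

Let `N = P ⊗ Q` be a non-prime II_1 factor.  All Haar unitaries of `P` and `Q` lie in one sequential
commutation orbit, and this orbit is dense in the set of all Haar unitaries of `N` (2-norm).  Either
any two Haar unitaries of `N` are joined by a chain of one fixed length in the ultrapower, or every
orbit is meagre; then no sequence of orbits covers the Haar unitaries.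
-/

namespace Pool.Agent.Results.MP_5d1ef1_an.Dichotomy

open Pool.Agent.Lib.MP_5d1ef1_an_SC

universe u v w

theorem result {P : Type u} {Q : Type v} {N : Type w} [CStarAlgebra P] [CStarAlgebra Q]
    [CStarAlgebra N] (τP : P →ₗ[ℂ] ℂ) (τQ : Q →ₗ[ℂ] ℂ) (τ : N →ₗ[ℂ] ℂ)
    (hP : II1 τP) (hQ : II1 τQ) (hN : II1 τ) (i : P →⋆ₐ[ℂ] N) (j : Q →⋆ₐ[ℂ] N)
    (h : IsTensor τP τQ τ i j) (U : Ultrafilter ℕ) (hU : ∀ m : ℕ, U ≠ pure m) :
    (∃ p : P, IsHaar τP p) ∧ (∃ q : Q, IsHaar τQ q) ∧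
    (∀ (p : P) (q : Q), IsHaar τP p → IsHaar τQ q →
      SeqComm U τ (i p) (j q) ∧ Dns τ (orb U τ (i p)) ∧ Dns τ (orb U τ (j q))) ∧
    ((∃ L : ℕ, ∀ u v : N, IsHaar τ u → IsHaar τ v → ChainU U τ L u v) ∨
      ((∀ u : N, IsHaar τ u → Mgr τ (orb U τ u)) ∧
        ∀ f : ℕ → N, (∀ k, IsHaar τ (f k)) →
          ∃ v : N, IsHaar τ v ∧ ∀ k, ¬ SeqComm U τ (f k) v)) := by
  obtain ⟨h1, h2, h3⟩ := tensor hN hP hQ h U hU
  exact ⟨h1, h2, h3, general hN U hU⟩

end Pool.Agent.Results.MP_5d1ef1_an.Dichotomy
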